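import Pool.Agent.Helper49.TP.StM

/-!
# Project TP (MP_953b28_co): module COR (small functions on triangles from duality)
-/

set_option autoImplicit false

namespace Pool.Agent.Helper32.TP

open Finset Pool.Agent.Helper49.TP Pool.Agent.Helper93.IA Pool.Agent.Helper38.IA

private theorem gauge {α β γ : Type} [Fintype α] [Fintype β] [Fintype γ] (FA : α → β → ℝ)
    (FB : β → γ → ℝ) (FC : γ → α → ℝ) (p : α → ℝ) (q : β → ℝ) (u : γ → ℝ)
    (h1 : ∀ a, ∑ b, FA a b = ∑ c, FC c a) (h2 : ∀ b, ∑ c, FB b c = ∑ a, FA a b)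
    (h3 : ∀ c, ∑ a, FC c a = ∑ b, FB b c) :
    ∑ a, ∑ b, FA a b * (p a - q b) + ∑ b, ∑ c, FB b c * (q b - u c) +
      ∑ c, ∑ a, FC c a * (u c - p a) = 0 := by
  have e1 : ∑ a, ∑ b, FA a b * (p a - q b) =
      ∑ a, p a * ∑ b, FA a b - ∑ b, q b * ∑ a, FA a b := by
    have h : ∑ b, q b * ∑ a, FA a b = ∑ a, ∑ b, q b * FA a b := by
      rw [Finset.sum_comm]
      exact Finset.sum_congr rfl fun b _ => Finset.mul_sum _ _ _
    rw [h, ← Finset.sum_sub_distrib]
    refine Finset.sum_congr rfl fun a _ => ?_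
    rw [Finset.mul_sum, ← Finset.sum_sub_distrib]
    exact Finset.sum_congr rfl fun b _ => by ring
  have e2 : ∑ b, ∑ c, FB b c * (q b - u c) =
      ∑ b, q b * ∑ c, FB b c - ∑ c, u c * ∑ b, FB b c := by
    have h : ∑ c, u c * ∑ b, FB b c = ∑ b, ∑ c, u c * FB b c := by
      rw [Finset.sum_comm]
      exact Finset.sum_congr rfl fun b _ => Finset.mul_sum _ _ _
    rw [h, ← Finset.sum_sub_distrib]
    refine Finset.sum_congr rfl fun a _ => ?_
    rw [Finset.mul_sum, ← Finset.sum_sub_distrib]
    exact Finset.sum_congr rfl fun b _ => by ring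
  have e3 : ∑ c, ∑ a, FC c a * (u c - p a) =
      ∑ c, u c * ∑ a, FC c a - ∑ a, p a * ∑ c, FC c a := by
    have h : ∑ a, p a * ∑ c, FC c a = ∑ c, ∑ a, p a * FC c a := by
      rw [Finset.sum_comm]
      exact Finset.sum_congr rfl fun b _ => Finset.mul_sum _ _ _
    rw [h, ← Finset.sum_sub_distrib]
    refine Finset.sum_congr rfl fun a _ => ?_
    rw [Finset.mul_sum, ← Finset.sum_sub_distrib]
    exact Finset.sum_congr rfl fun b _ => by ring
  rw [e1, e2, e3]
  simp only [h1, h2, h3]
  ring

private theorem bd {α β : Type} [Fintype α] [Fintype β] [DecidableEq α] [DecidableEq β]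
    (A : Finset (α × β)) (f g s : α → β → ℝ) (t : ℝ) (h : ∀ a b, (a, b) ∈ A → |f a b| ≤ t) :
    ∑ a, ∑ b, (if (a, b) ∈ A then f a b else 0) * g a b ≤
      t * ∑ a, ∑ b, (if (a, b) ∈ A then |g a b - s a b| else 0) +
        ∑ a, ∑ b, (if (a, b) ∈ A then f a b else 0) * s a b := by
  rw [Finset.mul_sum, ← Finset.sum_add_distrib]
  refine Finset.sum_le_sum fun a _ => ?_
  rw [Finset.mul_sum, ← Finset.sum_add_distrib]
  refine Finset.sum_le_sum fun b _ => ?_
  by_cases hab : (a, b) ∈ A
  · simp only [hab, if_true]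
    have h1 : f a b * (g a b - s a b) ≤ t * |g a b - s a b| := by
      refine (le_abs_self _).trans ?_
      rw [abs_mul]
      exact mul_le_mul_of_nonneg_right (h a b hab) (abs_nonneg _)
    linarith
  · simp only [hab, if_false]
    simp

theorem hCOR : StCOR := by
  intro hDUA hPOI δ hδ hδ4 α β γ _ _ _ _ _ _ n A B C fA fB fC t hn hα hβ hγ hM ht hfA hfB hfC
    hbA hbB hbC
  have hn' : (0 : ℝ) < n := by exact_mod_cast hn
  set L : ℝ := 50000 / δ * t / n with hL
  have hL0 : 0 ≤ L := by positivity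
  let χ : α → β → γ → ℝ := fun a b c => if (a, b) ∈ A ∧ (b, c) ∈ B ∧ (c, a) ∈ C then 1 else 0
  let Mx : (α × β × γ) → ((α × β) ⊕ (β × γ) ⊕ (γ × α)) → ℝ := fun T =>
    Sum.elim (fun e => if e = (T.1, T.2.1) then χ T.1 T.2.1 T.2.2 else 0)
      (Sum.elim (fun e => if e = (T.2.1, T.2.2) then χ T.1 T.2.1 T.2.2 else 0)
        (fun e => if e = (T.2.2, T.1) then χ T.1 T.2.1 T.2.2 else 0))
  let f : ((α × β) ⊕ (β × γ) ⊕ (γ × α)) → ℝ :=
    Sum.elim (fun e => if e ∈ A then fA e.1 e.2 else 0)
      (Sum.elim (fun e => if e ∈ B then fB e.1 e.2 else 0)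
        (fun e => if e ∈ C then fC e.1 e.2 else 0))
  have hmain : ∀ g : (α × β) ⊕ (β × γ) ⊕ (γ × α) → ℝ,
      ∑ e, f e * g e ≤ L * ∑ T, |∑ e, Mx T e * g e| := by
    intro g
    set gA : α → β → ℝ := fun a b => g (Sum.inl (a, b)) with hgA
    set gB : β → γ → ℝ := fun b c => g (Sum.inr (Sum.inl (b, c))) with hgB
    set gC : γ → α → ℝ := fun c a => g (Sum.inr (Sum.inr (c, a))) with hgC
    have e1 : ∀ T, ∑ e, Mx T e * g e =
        χ T.1 T.2.1 T.2.2 * (gA T.1 T.2.1 + gB T.2.1 T.2.2 + gC T.2.2 T.1) := by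
      intro T
      simp only [Mx, Fintype.sum_sum_type, Sum.elim_inl, Sum.elim_inr, ite_mul, zero_mul,
        Finset.sum_ite_eq', Finset.mem_univ, if_true, hgA, hgB, hgC]
      ring
    have e2 : ∑ T, |∑ e, Mx T e * g e| =
        ST A B C (fun a b c => gA a b + gB b c + gC c a) := by
      simp only [e1]
      rw [Fintype.sum_prod_type]
      unfold Pool.Agent.Helper49.TP.ST
      refine Finset.sum_congr rfl fun a _ => ?_
      rw [Fintype.sum_prod_type]
      refine Finset.sum_congr rfl fun b _ => Finset.sum_congr rfl fun c _ => ?_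
      simp only [χ]
      split_ifs <;> simp
    have e3 : ∑ e, f e * g e =
        ∑ a, ∑ b, (if (a, b) ∈ A then fA a b else 0) * gA a b +
        (∑ b, ∑ c, (if (b, c) ∈ B then fB b c else 0) * gB b c +
        ∑ c, ∑ a, (if (c, a) ∈ C then fC c a else 0) * gC c a) := by
      simp only [f, Fintype.sum_sum_type, Sum.elim_inl, Sum.elim_inr, Fintype.sum_prod_type,
        hgA, hgB, hgC]
    obtain ⟨p, q, u, hpqu⟩ := hPOI α β γ n δ A B C gA gB gC hn hα hβ hγ hδ hδ4 hM
    have b1 := bd A fA gA (fun a b => p a - q b) t hfA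
    have b2 := bd B fB gB (fun b c => q b - u c) t hfB
    have b3 := bd C fC gC (fun c a => u c - p a) t hfC
    have b4 := gauge (fun a b => if (a, b) ∈ A then fA a b else 0)
      (fun b c => if (b, c) ∈ B then fB b c else 0) (fun c a => if (c, a) ∈ C then fC c a else 0)
      p q u hbA hbB hbC
    rw [e2, e3]
    have b5 : t * Gd A B C gA gB gC p q u ≤
        L * ST A B C (fun a b c => gA a b + gB b c + gC c a) := by
      refine (mul_le_mul_of_nonneg_left hpqu ht).trans (le_of_eq ?_)
      rw [hL]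
      field_simp
    unfold Gd at b5
    linarith
  obtain ⟨y, hy1, hy2⟩ := hDUA _ _ Mx f L hL0 hmain
  refine ⟨fun a b c => χ a b c * y (a, b, c), ?_, ?_, ?_, ?_, ?_⟩
  · intro a b c
    have h := hy1 (a, b, c)
    simp only [χ]
    split_ifs
    · rw [one_mul]
      exact h
    · rw [zero_mul, abs_zero]
      exact hL0
  · intro a b c h
    by_contra h1
    apply h
    have h2 : ¬ ((a, b) ∈ A ∧ (b, c) ∈ B ∧ (c, a) ∈ C) := h1
    simp only [χ, h2, if_false, zero_mul]
  · intro a b hab
    have h := hy2 (Sum.inl (a, b))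
    simp only [f, Mx, Sum.elim_inl, hab, if_true] at h
    rw [← h, Fintype.sum_prod_type]
    rw [Finset.sum_eq_single a]
    · rw [Fintype.sum_prod_type, Finset.sum_eq_single b]
      · refine Finset.sum_congr rfl fun c _ => ?_
        simp only [if_true]
        ring
      · intro b' _ hb'
        refine Finset.sum_eq_zero fun c _ => ?_
        have : (a, b) ≠ (a, b') := fun h => hb' (Prod.mk.inj h).2.symm
        simp only [this, if_false, mul_zero]
      · intro h
        exact absurd (Finset.mem_univ _) h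
    · intro a' _ ha'
      refine Finset.sum_eq_zero fun x _ => ?_
      have : (a, b) ≠ (a', x.1) := fun h => ha' (Prod.mk.inj h).1.symm
      simp only [this, if_false, mul_zero]
    · intro h
      exact absurd (Finset.mem_univ _) h
  · intro b c hbc
    have h := hy2 (Sum.inr (Sum.inl (b, c)))
    simp only [f, Mx, Sum.elim_inl, Sum.elim_inr, hbc, if_true] at h
    rw [← h, Fintype.sum_prod_type]
    refine Finset.sum_congr rfl fun a _ => ?_
    rw [Finset.sum_eq_single (b, c)]
    · simp only [if_true]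
      ring
    · intro x _ hx
      have : (b, c) ≠ (x.1, x.2) := fun h => hx h.symm
      simp only [this, if_false, mul_zero]
    · intro h
      exact absurd (Finset.mem_univ _) h
  · intro c a hca
    have h := hy2 (Sum.inr (Sum.inr (c, a)))
    simp only [f, Mx, Sum.elim_inr, hca, if_true] at h
    rw [← h, Fintype.sum_prod_type, Finset.sum_eq_single a]
    · rw [Fintype.sum_prod_type]
      refine Finset.sum_congr rfl fun b _ => ?_
      rw [Finset.sum_eq_single c]
      · simp only [if_true]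
        ring
      · intro c' _ hc'
        have : (c, a) ≠ (c', a) := fun h => hc' (Prod.mk.inj h).1.symm
        simp only [this, if_false, mul_zero]
      · intro h
        exact absurd (Finset.mem_univ _) h
    · intro a' _ ha'
      refine Finset.sum_eq_zero fun x _ => ?_
      have : (c, a) ≠ (x.2, a') := fun h => ha' (Prod.mk.inj h).2.symm
      simp only [this, if_false, mul_zero]
    · intro h
      exact absurd (Finset.mem_univ _) h

end Pool.Agent.Helper32.TP
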