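import Pool.Agent.Helper3.TP.St
import Pool.Agent.Helper3.TL.M_EVENT
import Pool.Agent.Helper80.TL.M_FAM1
import Pool.Agent.Helper80.TL.M_FAM2
import Pool.Agent.Helper80.TL.M_FAM3
import Pool.Agent.Helper80.TL.M_FAR1

/-! Project TP (MP_86d903_lc), module EVB: parts (5) to (9) of the event lemma (helper32). -/

set_option autoImplicit false

open Finset
open MP86d903 (Valid Lit inside mem_inside pt flip Clause Ineq clauseIneq vsF ngF)
open Helper80.SR (Exp Closed Cl Sm)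
open Helper3.TL Helper3.TP

namespace Pool.Agent.Helper32.TPE

theorem lv_congr' {V : Type} [Fintype V] [DecidableEq V] {R : Finset V} {σ σ' : V → Bool}
    (h : ∀ i ∈ R, σ i = σ' i) (a : V → ℤ) (c : ℤ) : lv a c R σ = lv a c R σ' := by
  rw [Helper80.TL.lv_ext (subset_refl R) h a c, Finset.sdiff_self, sum_empty, add_zero]

theorem hEvB (hA1 : PAdj1) (hA2 : PAdj2) (hC3 : PClo3) (hK : PConst) : PEvB := by
  intro ι V _ _ _ _ vs ng q D κ B Ym Hv T g A A' Rq ρ σq a w c cw x y Q hE hκ ha hc hcw hAA'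
    hSC' hYm hg1 hg3 hdiv hfine hQ hx1 hx3 hy1 hy3 hT hpool hbad hHv hgood hRq hA'Rq hRqQ hRqw
  classical
  obtain ⟨t1, t2, t3, t4, t5, t6⟩ := Helper80.TL.hFam1 ι V vs ng q D κ A hE
  have hAc : Closed vs q A := hE.closed'
  have hKdef : evK D B Ym Hv =
    3 * (3 * evP B Hv + Ym) + 9 * (Ym + evN D B Hv) + 3 * fineN B := rfl
  have hSdef : evS D B Ym Hv = 81 * (Ym + evN D B Hv) + evK D B Ym Hv + 3 * evJ D B Ym Hv +
    3 * evP B Hv + 10 := rfl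
  have hJdef : evJ D B Ym Hv = Hv + B * evK D B Ym Hv + 9 * B := rfl
  rw [hSdef] at hκ
  set d : V → ℤ := fun i => x * w i - y * a i with hd
  set d₀ : ℤ := x * cw - y * c with hd₀
  have hD : ∀ R₁ σ₁, lv d d₀ R₁ σ₁ = x * lv w cw R₁ σ₁ - y * lv a c R₁ σ₁ :=
    fun R₁ σ₁ => lv_lin a w c cw x y R₁ σ₁
  have hg0 : (0 : ℤ) < g := by exact_mod_cast hg1
  have hg3' : (g : ℤ) ≤ 3 * B := by exact_mod_cast hg3
  have hx0 : x ≠ 0 := by omega
  -- (5)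
  set bd := bad vs ng q A ρ d 0 with hbd
  have hXA : ((A' ∪ bd) \ A).card ≤ (A' \ A).card + evN D B Hv := by
    have h1 : (A' ∪ bd) \ A ⊆ (A' \ A) ∪ bd := by
      intro v hv
      obtain ⟨h2, h3⟩ := mem_sdiff.mp hv
      rcases mem_union.mp h2 with h | h
      · exact mem_union_left _ (mem_sdiff.mpr ⟨h, h3⟩)
      · exact mem_union_right _ h
    have h2 := (card_le_card h1).trans (card_union_le _ _)
    omega
  obtain ⟨A'', hSC, hXA'', hA''c⟩ := hC3 ι V vs q D κ A (A' ∪ bd) hE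
    (hAA'.trans subset_union_left) (by omega)
  have hA'A'' : A' ⊆ A'' := subset_union_left.trans hXA''
  have hAA'' : A ⊆ A'' := hAA'.trans hA'A''
  have hA''card : (A'' \ A).card ≤ 9 * ((A' \ A).card + evN D B Hv) := by omega
  have hA''cl : Closed vs q A'' := by
    intro S hS hq hc
    have h1 := hSC S hS hq hc
    have h2 := card_pos.mpr hS
    omega
  have hzero : ∀ i ∉ A'', ∀ σ₁, Ext vs ng q A 3 A ρ (Cl vs q (insert i A)) σ₁ →
      ∑ j ∈ Cl vs q (insert i A) \ A, d j * sg (σ₁ j) = 0 := by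
    intro i hi σ₁ hσ₁
    by_contra hne
    apply hi
    refine hXA'' (mem_union_right _ ?_)
    rw [hbd]
    unfold bad
    refine mem_filter.mpr ⟨mem_univ _, fun h => hi (hAA'' h), σ₁, hσ₁, ?_⟩
    rw [Nat.cast_zero, zero_dvd_iff]
    exact hne
  have hcd : ∀ R₀ R₁ σ₁, Ext vs ng q A κ A ρ R₁ σ₁ → A ⊆ R₀ → R₀ ⊆ R₁ → Closed vs q R₀ →
      (∀ i ∈ R₁ \ R₀, i ∉ A'') → lv d d₀ R₁ σ₁ = lv d d₀ R₀ σ₁ := by
    intro R₀ R₁ σ₁ h1 h2 h3 h4 h5
    have h6 := hK ι V vs ng q D κ A R₀ R₁ ρ σ₁ d d₀ 0 hE (by omega) h1 h2 h3 h4 (by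
      intro i hi σ' hσ'
      rw [hzero i (h5 i hi) σ' hσ'])
    rw [zero_dvd_iff] at h6
    linarith
  have hcg : ∀ R₀ R₁ σ₁, Ext vs ng q A κ A ρ R₁ σ₁ → A ⊆ R₀ → R₀ ⊆ R₁ → Closed vs q R₀ →
      (∀ i ∈ R₁ \ R₀, i ∉ A') → (g : ℤ) ∣ lv a c R₁ σ₁ - lv a c R₀ σ₁ := by
    intro R₀ R₁ σ₁ h1 h2 h3 h4 h5
    exact hK ι V vs ng q D κ A R₀ R₁ ρ σ₁ a c g hE (by omega) h1 h2 h3 h4
      (fun i hi σ' hσ' => hdiv i (h5 i hi) σ' hσ')
  -- (6)
  have hgx : (g : ℤ) ∣ x := by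
    obtain ⟨U, s, hdU, hgU⟩ := hpool
    obtain ⟨k, hk⟩ : ∃ k, Disjoint (U k) A' := by
      by_contra hno
      push Not at hno
      have hch : ∀ k, ∃ v, v ∈ U k ∧ v ∈ A' := by
        intro k
        have h := hno k
        rw [Finset.not_disjoint_iff] at h
        exact h
      choose f hf1 hf2 using hch
      have hinj : Function.Injective f := by
        intro k l hkl
        by_contra hne
        have h := Finset.disjoint_left.mp (hdU k l hne) (hf1 k)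
        exact h (hkl ▸ hf1 l)
      have hcard : (univ.image f).card ≤ (A' \ A).card := by
        refine card_le_card ?_
        intro v hv
        obtain ⟨k, -, rfl⟩ := mem_image.mp hv
        exact mem_sdiff.mpr ⟨hf2 k, fun h => Finset.disjoint_left.mp (hgU k).1 (hf1 k) h⟩
      rw [card_image_of_injective _ hinj, card_univ, Fintype.card_fin] at hcard
      omega
    obtain ⟨g1, g2, g3, g4, g5, g6⟩ := hgU k
    have hnear : near vs A (rad (2 * (0 + 3)) + 1) (A \ A) = ∅ := by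
      have h1 := (Helper80.TL.hFar1 ι V vs q D κ A (A \ A) (rad (2 * (0 + 3)) + 1) hE
        sdiff_disjoint).1
      have h2 : (A \ A).card = 0 := by rw [Finset.sdiff_self, card_empty]
      rw [h2, zero_mul] at h1
      exact card_eq_zero.mp (Nat.le_zero.mp h1)
    obtain ⟨σ₂, h1, h2⟩ := hA1 ι V vs ng q D κ 0 A A (U k) ρ (s k) hE (subset_refl _) hAc
      (by simp) g1 g2 g3 g4 (by rw [hnear]; exact disjoint_empty_right _) true
    have h3 := hcg A (A ∪ U k) σ₂ (h1.mono (by omega)) (subset_refl _) subset_union_left hAc (by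
      intro i hi hiA'
      obtain ⟨h4, h5⟩ := mem_sdiff.mp hi
      rcases mem_union.mp h4 with h | h
      · exact h5 h
      · exact Finset.disjoint_left.mp hk h hiA')
    rw [h2 a c, lv_congr' h1.2.2.2.1 a c, g5] at h3
    have h4 : lv a c A ρ + sg true * x - lv a c A ρ = x := by
      unfold sg
      simp
    rwa [h4] at h3
  have hgle : (g : ℤ) ≤ x := Int.le_of_dvd (by omega) hgx
  obtain ⟨γ, hγ, hγ1, hγy⟩ : ∃ γ : ℤ, x * γ = y * g ∧ 1 ≤ γ ∧ γ ≤ y := by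
    obtain ⟨ρ₀, hρ₀⟩ := t4 κ A ρ A'' (subset_refl _) hAc hAA'' hA''cl (by omega) le_rfl
    obtain ⟨R, σ, h1, h2⟩ := hfine A'' ρ₀ 1 c hA'A'' hSC hρ₀ hA''card (by omega)
    have h3 : Ext vs ng q A κ A ρ R σ := (t1 _ _ _ _ _ _ _ _ hρ₀ h1).mono (by omega)
    have h4 := hcd A'' R σ h3 hAA'' h1.1 hA''cl (fun i hi => (mem_sdiff.mp hi).2)
    rw [lv_congr' h1.2.2.2.1 d d₀, hD, hD, h2] at h4
    push_cast at h4
    have h5 : x * (lv w cw R σ - lv w cw A'' ρ₀) = y * g := by linear_combination h4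
    generalize lv w cw R σ - lv w cw A'' ρ₀ = γ at h5
    have h6 : 0 < y * (g : ℤ) := mul_pos (by omega) hg0
    refine ⟨γ, h5, ?_, ?_⟩
    · by_contra hcon
      have h7 : γ ≤ 0 := by omega
      have h8 : x * γ ≤ 0 := mul_nonpos_of_nonneg_of_nonpos (by omega) h7
      omega
    · by_contra hcon
      have h7 : y + 1 ≤ γ := by omega
      have h8 : x * (y + 1) ≤ x * γ := mul_le_mul_of_nonneg_left h7 (by omega)
      have h9 : y * (g : ℤ) ≤ y * x := mul_le_mul_of_nonneg_left hgle (by omega)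
      have h10 : x * (y + 1) = y * x + x := by ring
      omega
  -- (7)
  have hcls : ∀ i ∉ A'', ∀ σ₁, Ext vs ng q A 3 A ρ (Cl vs q (insert i A)) σ₁ → ∃ z : ℤ,
      ∑ j ∈ Cl vs q (insert i A) \ A, a j * sg (σ₁ j) = g * z ∧
      ∑ j ∈ Cl vs q (insert i A) \ A, w j * sg (σ₁ j) = γ * z := by
    intro i hi σ₁ hσ₁
    obtain ⟨z, hz⟩ := hdiv i (fun h => hi (hA'A'' h)) σ₁ hσ₁
    refine ⟨z, hz, ?_⟩
    have h1 := hzero i hi σ₁ hσ₁
    have h2 : ∑ j ∈ Cl vs q (insert i A) \ A, d j * sg (σ₁ j) =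
        x * ∑ j ∈ Cl vs q (insert i A) \ A, w j * sg (σ₁ j) -
        y * ∑ j ∈ Cl vs q (insert i A) \ A, a j * sg (σ₁ j) := by
      rw [mul_sum, mul_sum, ← sum_sub_distrib]
      exact sum_congr rfl (fun j _ => by simp only [hd]; ring)
    rw [h1, hz] at h2
    apply mul_left_cancel₀ hx0
    linear_combination (-1) * h2 - z * hγ
  -- (8)
  obtain ⟨r, hQr, hvr, hgr⟩ := hRqQ
  set R₀ := Rq ∩ A'' with hR₀
  have hR₀c : Closed vs q R₀ := Helper80.SR.Closed.inter hRq.2.1 hA''cl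
  have hA'R₀ : A' ⊆ R₀ := subset_inter hA'Rq hA'A''
  have hAR₀ : A ⊆ R₀ := hAA'.trans hA'R₀
  have hR₀card : (R₀ \ A).card ≤ (A'' \ A).card :=
    card_le_card (sdiff_subset_sdiff inter_subset_right (subset_refl _))
  have hER₀ : Ext vs ng q A κ A ρ R₀ σq :=
    t3 _ _ _ _ _ _ _ hRq hR₀c hAR₀ inter_subset_left (by omega)
  have hdR₀ : y * r ≤ lv d d₀ R₀ σq := by
    rw [← hcd R₀ Rq σq hRq hAR₀ inter_subset_left hR₀c (by
      intro i hi h
      obtain ⟨h1, h2⟩ := mem_sdiff.mp hi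
      exact h2 (mem_inter.mpr ⟨h1, h⟩)), hD, hRqw]
    have h := mul_le_mul_of_nonneg_left hvr (show (0 : ℤ) ≤ y by omega)
    linarith
  obtain ⟨ρ'', hρ'', hdρ⟩ : ∃ ρ'', Ext vs ng q A κ R₀ σq A'' ρ'' ∧
      lv d d₀ R₀ σq ≤ lv d d₀ A'' ρ'' := by
    obtain ⟨σ₁, hσ₁⟩ := t4 κ R₀ σq A'' hAR₀ hR₀c inter_subset_right hA''cl (by omega) le_rfl
    obtain ⟨h5, h6⟩ := t5 _ _ _ _ _ d d₀ hσ₁
    by_cases hs : 0 ≤ ∑ i ∈ A'' \ R₀, d i * sg (σ₁ i)
    · exact ⟨σ₁, hσ₁, by rw [h5]; linarith⟩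
    · exact ⟨flip R₀ σ₁, t2 _ _ _ _ _ hσ₁, by rw [h6]; linarith⟩
  have hEA'' : Ext vs ng q A κ A ρ A'' ρ'' := t1 _ _ _ _ _ _ _ _ hER₀ hρ''
  obtain ⟨t, ht⟩ : ∃ t : ℤ, lv a c A'' ρ'' = -r + g * t := by
    have h1 := hcg R₀ A'' ρ'' hEA'' hAR₀ inter_subset_right hR₀c
      (fun i hi h => (mem_sdiff.mp hi).2 (hA'R₀ h))
    have h2 := hcg R₀ Rq σq hRq hAR₀ inter_subset_left hR₀c
      (fun i hi h => (mem_sdiff.mp hi).2 (hA'R₀ h))
    rw [lv_congr' hρ''.2.2.2.1 a c] at h1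
    obtain ⟨u1, hu1⟩ := h1
    obtain ⟨u2, hu2⟩ := h2
    obtain ⟨u3, hu3⟩ := hgr
    exact ⟨u1 - u2 + u3, by linear_combination hu1 - hu2 + hu3⟩
  obtain ⟨x', hx'⟩ := hgx
  have hx'1 : 1 ≤ x' := by
    by_contra h
    have h1 : x' ≤ 0 := by omega
    have h2 : (g : ℤ) * x' ≤ 0 := mul_nonpos_of_nonneg_of_nonpos hg0.le h1
    omega
  have hx'x : x' ≤ x := by
    have h1 : 1 * x' ≤ (g : ℤ) * x' := mul_le_mul_of_nonneg_right (by omega) (by omega)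
    omega
  obtain ⟨k, hk0, hkx, l, hl⟩ : ∃ k : ℤ, 0 ≤ k ∧ k < x' ∧ ∃ l : ℤ, t + k = x' * l := by
    refine ⟨(-t) % x', Int.emod_nonneg _ (by omega), Int.emod_lt_of_pos _ (by omega),
      -((-t) / x'), ?_⟩
    have h := Int.emod_add_mul_ediv (-t) x'
    linear_combination h
  obtain ⟨kn, hkn⟩ := Int.eq_ofNat_of_zero_le hk0
  obtain ⟨R, σ, h1, h2⟩ := hfine A'' ρ'' kn c hA'A'' hSC hEA'' hA''card (by omega)
  have hER : Ext vs ng q A κ A ρ R σ := (t1 _ _ _ _ _ _ _ _ hEA'' h1).mono (by omega)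
  have hvR : lv a c R σ = -r + x * l := by
    rw [h2, ht, hx']
    linear_combination (g : ℤ) * hl - (g : ℤ) * hkn
  have hRK : (R \ A).card ≤ evK D B Ym Hv := by
    have := h1.2.2.1
    omega
  have hvRb : |lv a c R σ| ≤ Hv + B * evK D B Ym Hv := by
    rw [(t5 _ _ _ _ _ a c hER).1]
    have h3 : |∑ i ∈ R \ A, a i * sg (σ i)| ≤ B * (R \ A).card := sum_sg_le ha σ
    have h5 : (B : ℤ) * ((R \ A).card : ℤ) ≤ B * evK D B Ym Hv := by
      refine mul_le_mul_of_nonneg_left ?_ (Int.natCast_nonneg B)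
      exact_mod_cast hRK
    have h6 := abs_add_le (lv a c A ρ) (∑ i ∈ R \ A, a i * sg (σ i))
    linarith
  have hl' : |-l| ≤ ((evJ D B Ym Hv : ℕ) : ℤ) := by
    rw [abs_neg]
    have h3 : |l| ≤ |x * l| := by
      rw [abs_mul, abs_of_nonneg (by omega : (0 : ℤ) ≤ x)]
      have h := mul_le_mul_of_nonneg_right hx1 (abs_nonneg l)
      linarith
    have h4 : x * l = lv a c R σ + r := by linarith
    rw [h4] at h3
    have hr1 := (hQ r hQr).1
    have hr2 := (hQ r hQr).2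
    have h5 := abs_add_le (lv a c R σ) r
    rw [abs_of_nonneg (by omega : (0 : ℤ) ≤ r)] at h5
    rw [hJdef]
    push_cast
    linarith
  obtain ⟨R₂, σ₂, e1, e2, e3⟩ := hA2 ι V vs ng q D κ (evK D B Ym Hv) (evJ D B Ym Hv) T A R σ a w
    x y (-l) hE (hAA''.trans h1.1) h1.2.1 hRK hl' (by omega) hpool
  have hE2 : Ext vs ng q A κ A ρ R₂ σ₂ := (t1 _ _ _ _ _ _ _ _ hER e1).mono (by omega)
  have hA''R₂ : A'' ⊆ R₂ := h1.1.trans e1.1
  have hv2 : lv a c R₂ σ₂ = -r := by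
    rw [e2 c, hvR]
    ring
  have hw2 := hgood R₂ σ₂ hE2 (hA'A''.trans hA''R₂)
    ⟨r, hQr, by rw [hv2], by rw [hv2]; simp⟩
  have hd2 := hcd A'' R₂ σ₂ hE2 hAA'' hA''R₂ hA''cl (fun i hi => (mem_sdiff.mp hi).2)
  have hagree : ∀ i ∈ A'', σ₂ i = ρ'' i := by
    intro i hi
    rw [e1.2.2.2.1 i (h1.1 hi), h1.2.2.2.1 i hi]
  rw [lv_congr' hagree d d₀, hD R₂ σ₂, hv2] at hd2
  have hw20 : lv w cw R₂ σ₂ = 0 := by
    have h3 : 0 ≤ x * lv w cw R₂ σ₂ := by linarith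
    have h4 : 0 ≤ lv w cw R₂ σ₂ := by
      by_contra hneg
      have h5 : lv w cw R₂ σ₂ < 0 := by omega
      have h6 : x * lv w cw R₂ σ₂ < 0 := mul_neg_of_pos_of_neg (by omega) h5
      omega
    omega
  have hwA'' : lv w cw A'' ρ'' = γ * t := by
    rw [hw20, hD, ht] at hd2
    apply mul_left_cancel₀ hx0
    linear_combination (-1) * hd2 - t * hγ
  -- (9)
  obtain ⟨N, hN1, hN2⟩ := Helper80.TL.hFam3 ι V vs ng q D κ A A'' ρ''
    (3 * ((A'' \ A).card + 1)) a w c cw g γ hE hAA'' hA''cl le_rfl (by omega) hc hcw (by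
      intro i hi σ₁ hσ₁
      have f1 : Ext vs ng q A κ A ρ (Cl vs q (insert i A'')) σ₁ :=
        (t1 _ _ _ _ _ _ _ _ hEA'' hσ₁).mono (by omega)
      have f2 := hcd A'' _ σ₁ f1 hAA'' hσ₁.1 hA''cl (fun i hi => (mem_sdiff.mp hi).2)
      obtain ⟨z, hz⟩ := hcg A'' _ σ₁ f1 hAA'' hσ₁.1 hA''cl
        (fun i hi h => (mem_sdiff.mp hi).2 (hA'A'' h))
      rw [hD, hD, lv_congr' hσ₁.2.2.2.1 w cw, lv_congr' hσ₁.2.2.2.1 a c,
        (t5 _ _ _ _ _ a c hσ₁).1, (t5 _ _ _ _ _ w cw hσ₁).1] at f2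
      rw [lv_congr' hσ₁.2.2.2.1 a c, (t5 _ _ _ _ _ a c hσ₁).1] at hz
      refine ⟨z, by linarith, ?_⟩
      apply mul_left_cancel₀ hx0
      linear_combination f2 + y * hz - z * hγ)
  rw [ht] at hN1
  rw [hwA''] at hN2
  have hodd : Odd (γ * (t + N)) := by
    have h3 : γ * t + 1 + γ * N = γ * (t + N) + 1 := by ring
    rw [h3, Int.even_add_one, Int.not_even_iff_odd] at hN2
    exact hN2
  obtain ⟨hγodd, htN⟩ := Int.odd_mul.mp hodd
  have hrg : Odd (r + g) := by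
    obtain ⟨m1, hm1⟩ := htN
    obtain ⟨m2, hm2⟩ := hN1
    refine ⟨g * m1 + g - m2, ?_⟩
    linear_combination (-1) * hm2 + (g : ℤ) * hm1
  obtain ⟨γn, rfl⟩ := Int.eq_ofNat_of_zero_le (by omega : 0 ≤ γ)
  refine ⟨⟨r, hQr, hrg⟩, γn, A'', ?_, ?_, hA'A'', hSC, hA''card, hcls⟩
  · exact_mod_cast hγodd
  · have h3 : (γn : ℤ) ≤ 3 * B := by linarith
    exact_mod_cast h3

end Pool.Agent.Helper32.TPE
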