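import Pool.Agent.Helper49.TP.StF

/-!
# Project TP (MP_953b28_co): module FMD (no direction at a maximum)
-/

set_option autoImplicit false

namespace Pool.Agent.Helper32.TP

open Finset Pool.Agent.Helper49.TP Pool.Agent.Helper93.IA
open scoped Topology

private theorem ev_lo {x y : ℝ} (hx : 0 ≤ x) (h : x = 0 → 0 ≤ y) :
    ∀ᶠ e in 𝓝[>] (0 : ℝ), 0 ≤ x + e * y := by
  rcases hx.eq_or_lt with h0 | h0
  · have hy := h h0.symm
    filter_upwards [self_mem_nhdsWithin] with e he
    have he' : (0 : ℝ) < e := he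
    have := mul_nonneg he'.le hy
    linarith
  · have hc : Filter.Tendsto (fun e : ℝ => x + e * y) (𝓝[>] (0 : ℝ)) (𝓝 (x + 0 * y)) :=
      (Continuous.tendsto (by fun_prop) 0).mono_left nhdsWithin_le_nhds
    have h1 : 0 < x + 0 * y := by linarith
    filter_upwards [hc.eventually (lt_mem_nhds h1)] with e he
    exact he.le

private theorem ev_hi {x y L : ℝ} (hx : x ≤ L) (h : x = L → y ≤ 0) :
    ∀ᶠ e in 𝓝[>] (0 : ℝ), x + e * y ≤ L := by
  have h1 := ev_lo (x := L - x) (y := -y) (by linarith) (fun h2 => by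
    have := h (by linarith)
    linarith)
  filter_upwards [h1] with e he
  have : e * -y = -(e * y) := by ring
  linarith

theorem hFMD : StFMD := by
  intro n Λ t FA FB FC x y hΛ ht0 ht1 hx hmax hy0 hyΛ hA hB hC
  obtain ⟨hx1, hx2, hx3, hx4⟩ := hx
  have h1 : ∀ᶠ e in 𝓝[>] (0 : ℝ), ∀ r c s, 0 ≤ x r c s + e * y r c s := by
    refine Filter.eventually_all.2 fun r => Filter.eventually_all.2 fun c =>
      Filter.eventually_all.2 fun s => ev_lo (hx1 r c s).1 (hy0 r c s)
  have h2 : ∀ᶠ e in 𝓝[>] (0 : ℝ), ∀ r c s, x r c s + e * y r c s ≤ Λ := by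
    refine Filter.eventually_all.2 fun r => Filter.eventually_all.2 fun c =>
      Filter.eventually_all.2 fun s => ev_hi (hx1 r c s).2 (hyΛ r c s)
  have h3 : ∀ᶠ e in 𝓝[>] (0 : ℝ), t + e * 1 ≤ 1 := ev_hi ht1.le (fun h => absurd h ht1.ne)
  have h4 : ∀ᶠ e in 𝓝[>] (0 : ℝ), e ∈ Set.Ioi (0 : ℝ) := self_mem_nhdsWithin
  obtain ⟨e, h1, h2, h3, h4⟩ := (h1.and (h2.and (h3.and h4))).exists
  have he : (0 : ℝ) < e := h4
  rw [mul_one] at h3
  have hS : Sol Λ (t + e) FA FB FC (fun r c s => x r c s + e * y r c s) := by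
    refine ⟨fun r c s => ⟨h1 r c s, h2 r c s⟩, ?_, ?_, ?_⟩
    · intro r c
      rw [Finset.sum_add_distrib, ← Finset.mul_sum, hx2, hA]
      ring
    · intro c s
      rw [Finset.sum_add_distrib, ← Finset.mul_sum, hx3, hB]
      ring
    · intro s r
      rw [Finset.sum_add_distrib, ← Finset.mul_sum, hx4, hC]
      ring
  have := hmax (t + e) _ h3 hS (by linarith)
  linarith

end Pool.Agent.Helper32.TP
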